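import Pool.Agent.Lib.MP_95f78b_al.LQ2A

/-!
# MP_95f78b_al: type FF for PD_3-groups in a class of groups

Let `LQ2` (`Pool.Agent.Lib.MP_8f66f0_al_LQ2.Defs`) be the least class which contains the torsion free
groups of the class `LQ` (the least class of groups which contains the groups `GL_d(R)`, for all `d`
and all commutative rings `R`, and is closed under injective homomorphisms, directed unions,
extensions, and actions on trees and on CAT(0) cube complexes of finite dimension with all vertex
stabilizers in the class) and is closed under injective homomorphisms (so under isomorphism and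
subgroups), directed unions, extensions, and actions

* on trees without inversions, with all vertex stabilizers in the class,
* on CAT(0) cube complexes of finite dimension, with the stabilizers of all cubes in the class,
* without inversions on 2-dimensional CAT(0) complexes, with all vertex stabilizers in the class.

Every group `G` of type FP in the class is of type FF: the trivial module `ℤ` has a finite
resolution by finitely generated free `ℤ[G]`-modules. In particular every orientable `PD_3`-group
in the class is of type FF.
-/

set_option autoImplicit false

open CategoryTheory

namespace Pool.Agent.Results.MP_95f78b_al.CatComplexesFF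

/-- Every group of type FP in the class `LQ2` is of type FF. -/
theorem result (G : Type) [Group G] (hG : Pool.Agent.LinAll.LQ2 G)
    (hFP : ∃ P : CategoryTheory.ProjectiveResolution (Rep.trivial ℤ G ℤ),
      (∃ N : ℕ, ∀ i : ℕ, N < i → CategoryTheory.Limits.IsZero (P.complex.X i)) ∧
      ∀ i : ℕ, ∃ n : ℕ, ∃ f : Quiver.Hom (P.complex.X i) (Rep.free ℤ G (Fin n)),
        ∃ g : Quiver.Hom (Rep.free ℤ G (Fin n)) (P.complex.X i),
          CategoryTheory.CategoryStruct.comp f g =
            CategoryTheory.CategoryStruct.id (P.complex.X i)) :
    ∃ P : CategoryTheory.ProjectiveResolution (Rep.trivial ℤ G ℤ),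
      (∃ N : ℕ, ∀ i : ℕ, N < i → CategoryTheory.Limits.IsZero (P.complex.X i)) ∧
      ∀ i : ℕ, ∃ n : ℕ,
        Nonempty (CategoryTheory.Iso (P.complex.X i) (Rep.free ℤ G (Fin n))) :=
  Pool.Agent.TypeFF.lq2a_ff hG hFP

end Pool.Agent.Results.MP_95f78b_al.CatComplexesFF
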