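import Pool.Agent.Lib.MP_95f78b_al.Fin

/-!
# MP_95f78b_al: type FF for PD_3-groups in a large class

Every group `G` of type FP in the class `CC` is of type FF: the trivial module `ℤ` has a finite
resolution by finitely generated free `ℤ[G]`-modules. In particular every orientable `PD_3`-group in
the class is of type FF. The class `CC` (`Pool.Agent.Lib.MP_8f66f0_al_HierZ.FinalD`) is the least
class of groups which contains all groups `Γ` for which `K_1(LΓ)` is generated by the units of `L`
and the elements of `Γ` for all Euclidean domains `L` (for example `Γ = 1`), and is closed under
directed colimits with arbitrary structure maps, and under the amalgams and HNN extensions of groups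
of the class, along groups of the class, for which for some `k` the stabilizers of the paths with
`k + 1` edges in the Bass-Serre tree are contained in subgroups in the class `NN`. The class `NN`
contains all groups of finite cohomological dimension; so there is no condition on the stabilizers
if the amalgam or the HNN extension has finite cohomological dimension, for instance if it is a
subgroup of a `PD_3`-group.

The proof: all finitely generated projective modules over `ℤ[G]` are stably free (this is the case
for all groups in `CC`, because `K_1` of `L[G]` is computed for all Euclidean domains `L`, see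
`MP_8f66f0_al_HierZ.ClassS`), so that the projective modules in a finite resolution can be replaced
by free ones (`Lib.MP_95f78b_al`).
-/

set_option autoImplicit false

open CategoryTheory

namespace Pool.Agent.Results.MP_95f78b_al.TypeFF

/-- Every group of type FP in the class `CC` is of type FF. -/
theorem result (G : Type) [Group G] (hG : Pool.Agent.WhVan.CC G)
    (hFP : ∃ P : CategoryTheory.ProjectiveResolution (Rep.trivial ℤ G ℤ),
      (∃ N : ℕ, ∀ i : ℕ, N < i → CategoryTheory.Limits.IsZero (P.complex.X i)) ∧
      ∀ i : ℕ, ∃ n : ℕ, ∃ f : Quiver.Hom (P.complex.X i) (Rep.free ℤ G (Fin n)),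
        ∃ g : Quiver.Hom (Rep.free ℤ G (Fin n)) (P.complex.X i),
          CategoryTheory.CategoryStruct.comp f g =
            CategoryTheory.CategoryStruct.id (P.complex.X i)) :
    ∃ P : CategoryTheory.ProjectiveResolution (Rep.trivial ℤ G ℤ),
      (∃ N : ℕ, ∀ i : ℕ, N < i → CategoryTheory.Limits.IsZero (P.complex.X i)) ∧
      ∀ i : ℕ, ∃ n : ℕ,
        Nonempty (CategoryTheory.Iso (P.complex.X i) (Rep.free ℤ G (Fin n))) :=
  Pool.Agent.TypeFF.ff_of_cc hG hFP

end Pool.Agent.Results.MP_95f78b_al.TypeFF
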